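import Mathlib

/-!
# GMS/Spec: the spectral potential (helper24; row C, notes 3953 (61), 3958 (44))

`Ph s G = Tr G^2 (G + s)^{-1}` for a positive semidefinite `G`, as the supremum of the affine functionals
`af s C G = 2 Tr C G - Tr C G C^T - s Tr C C^T`.
-/

set_option linter.unusedVariables false
set_option linter.unusedSectionVars false

namespace Pool.Agent.GMS

open Matrix Finset

section Af

variable {I : Type*} [Fintype I] [DecidableEq I]

/-- the affine functional -/
def af (s : ℝ) (C G : Matrix I I ℝ) : ℝ :=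
  2 * trace (C * G) - trace (C * G * Cᵀ) - s * trace (C * Cᵀ)

/-- resolvent -/
noncomputable def Rs (s : ℝ) (G : Matrix I I ℝ) : Matrix I I ℝ := (G + s • (1 : Matrix I I ℝ))⁻¹

/-- optimal predictor -/
noncomputable def Cs (s : ℝ) (G : Matrix I I ℝ) : Matrix I I ℝ := G * Rs s G

/-- the potential -/
noncomputable def Ph (s : ℝ) (G : Matrix I I ℝ) : ℝ := trace (G * Rs s G * G)

theorem psd_symm {G : Matrix I I ℝ} (hG : G.PosSemidef) : Gᵀ = G := by
  have h := hG.1
  unfold Matrix.IsHermitian at h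
  rwa [conjTranspose_eq_transpose_of_trivial] at h

theorem pd_add {s : ℝ} (hs : 0 < s) {G : Matrix I I ℝ} (hG : G.PosSemidef) :
    (G + s • (1 : Matrix I I ℝ)).PosDef :=
  Matrix.PosDef.posSemidef_add hG (Matrix.PosDef.one.smul hs)

theorem mul_Rs {s : ℝ} (hs : 0 < s) {G : Matrix I I ℝ} (hG : G.PosSemidef) :
    (G + s • (1 : Matrix I I ℝ)) * Rs s G = 1 :=
  Matrix.mul_nonsing_inv _ ((Matrix.isUnit_iff_isUnit_det _).1 (pd_add hs hG).isUnit)

theorem Rs_mul {s : ℝ} (hs : 0 < s) {G : Matrix I I ℝ} (hG : G.PosSemidef) :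
    Rs s G * (G + s • (1 : Matrix I I ℝ)) = 1 :=
  Matrix.nonsing_inv_mul _ ((Matrix.isUnit_iff_isUnit_det _).1 (pd_add hs hG).isUnit)

theorem Rs_symm {s : ℝ} (hs : 0 < s) {G : Matrix I I ℝ} (hG : G.PosSemidef) :
    (Rs s G)ᵀ = Rs s G := by
  unfold Rs
  rw [Matrix.transpose_nonsing_inv, Matrix.transpose_add, psd_symm hG, Matrix.transpose_smul,
    Matrix.transpose_one]

theorem Rs_comm {s : ℝ} (hs : 0 < s) {G : Matrix I I ℝ} (hG : G.PosSemidef) :
    Rs s G * G = G * Rs s G := by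
  have h1 := mul_Rs hs hG
  have h2 := Rs_mul hs hG
  rw [Matrix.add_mul, Matrix.smul_mul, Matrix.one_mul] at h1
  rw [Matrix.mul_add, Matrix.mul_smul, Matrix.mul_one] at h2
  have h3 := h1.trans h2.symm
  exact (add_right_cancel h3).symm

theorem Cs_symm {s : ℝ} (hs : 0 < s) {G : Matrix I I ℝ} (hG : G.PosSemidef) :
    (Cs s G)ᵀ = Cs s G := by
  unfold Cs
  rw [Matrix.transpose_mul, psd_symm hG, Rs_symm hs hG, Rs_comm hs hG]

/-- `1 - C = s R` -/
theorem one_sub_Cs {s : ℝ} (hs : 0 < s) {G : Matrix I I ℝ} (hG : G.PosSemidef) :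
    1 - Cs s G = s • Rs s G := by
  have h1 := mul_Rs hs hG
  rw [Matrix.add_mul, Matrix.smul_mul, Matrix.one_mul] at h1
  unfold Cs
  rw [← h1]
  abel

/-- optimality: `G (1 - C) = s C` -/
theorem opt_Cs {s : ℝ} (hs : 0 < s) {G : Matrix I I ℝ} (hG : G.PosSemidef) :
    G - G * Cs s G = s • Cs s G := by
  have h := one_sub_Cs hs hG
  have : G * (1 - Cs s G) = s • Cs s G := by
    rw [h, Matrix.mul_smul]
    rfl
  rw [Matrix.mul_sub, Matrix.mul_one] at this
  exact this

theorem af_le {s : ℝ} (hs : 0 < s) {G : Matrix I I ℝ} (hG : G.PosSemidef) (C : Matrix I I ℝ) :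
    af s C G ≤ Ph s G := by
  have hpd := pd_add hs hG
  have h0 := (hpd.posSemidef.mul_mul_conjTranspose_same (C - G * Rs s G)).trace_nonneg
  rw [conjTranspose_eq_transpose_of_trivial] at h0
  have hR := Rs_symm hs hG
  have e1 : (C - G * Rs s G) * (G + s • (1 : Matrix I I ℝ)) * (C - G * Rs s G)ᵀ
      = C * G * Cᵀ + s • (C * Cᵀ) - C * G - G * Cᵀ + G * Rs s G * G := by
    have a1 : (C - G * Rs s G) * (G + s • (1 : Matrix I I ℝ)) = C * (G + s • 1) - G := by
      rw [Matrix.sub_mul, Matrix.mul_assoc G, Rs_mul hs hG, Matrix.mul_one]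
    have a2 : (C - G * Rs s G)ᵀ = Cᵀ - Rs s G * G := by
      rw [Matrix.transpose_sub, Matrix.transpose_mul, hR, psd_symm hG]
    have a3 : (G + s • (1 : Matrix I I ℝ)) * (Rs s G * G) = G := by
      rw [← Matrix.mul_assoc, mul_Rs hs hG, Matrix.one_mul]
    rw [a1, a2, Matrix.mul_sub, Matrix.sub_mul, Matrix.sub_mul, Matrix.mul_assoc C (G + s • 1) (Rs s G * G), a3,
      Matrix.mul_add, Matrix.add_mul, Matrix.mul_smul, Matrix.mul_one, Matrix.smul_mul, ← Matrix.mul_assoc G]
    abel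
  rw [e1] at h0
  have e2 : trace (G * Cᵀ) = trace (C * G) := by
    rw [← Matrix.trace_transpose, Matrix.transpose_mul, Matrix.transpose_transpose, psd_symm hG]
  simp only [Matrix.trace_add, Matrix.trace_sub, Matrix.trace_smul, smul_eq_mul, e2] at h0
  unfold af Ph
  linarith

theorem af_Cs {s : ℝ} (hs : 0 < s) {G : Matrix I I ℝ} (hG : G.PosSemidef) :
    af s (Cs s G) G = Ph s G := by
  have h1 := opt_Cs hs hG
  have h2 := Cs_symm hs hG
  unfold af
  rw [h2]
  have e1 : trace (Cs s G * G * Cs s G) = trace (Cs s G * G) - s * trace (Cs s G * Cs s G) := by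
    have : Cs s G * G * Cs s G = Cs s G * G - s • (Cs s G * Cs s G) := by
      rw [Matrix.mul_assoc, ← Matrix.mul_smul, ← h1, Matrix.mul_sub]
      abel
    rw [this, Matrix.trace_sub, Matrix.trace_smul, smul_eq_mul]
  rw [e1]
  unfold Ph
  unfold Cs
  ring

theorem Ph_nonneg {s : ℝ} (hs : 0 < s) {G : Matrix I I ℝ} (hG : G.PosSemidef) : 0 ≤ Ph s G := by
  have h := af_le hs hG 0
  simpa [af] using h

/-- `Ph <= Tr G` -/
theorem af_le_trace {s : ℝ} (hs : 0 ≤ s) {G : Matrix I I ℝ} (hG : G.PosSemidef) (C : Matrix I I ℝ) :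
    af s C G ≤ trace G := by
  have h0 := (hG.mul_mul_conjTranspose_same (1 - C)).trace_nonneg
  rw [conjTranspose_eq_transpose_of_trivial] at h0
  have e1 : (1 - C) * G * (1 - C)ᵀ = G - C * G - G * Cᵀ + C * G * Cᵀ := by
    rw [Matrix.transpose_sub, Matrix.transpose_one, Matrix.sub_mul, Matrix.one_mul, Matrix.mul_sub, Matrix.mul_one,
      Matrix.sub_mul]
    abel
  have e2 : trace (G * Cᵀ) = trace (C * G) := by
    rw [← Matrix.trace_transpose, Matrix.transpose_mul, Matrix.transpose_transpose, psd_symm hG]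
  rw [e1] at h0
  simp only [Matrix.trace_add, Matrix.trace_sub, e2] at h0
  have h3 : 0 ≤ trace (C * Cᵀ) := by
    have := (Matrix.posSemidef_self_mul_conjTranspose C).trace_nonneg
    rwa [conjTranspose_eq_transpose_of_trivial] at this
  have h4 := mul_nonneg hs h3
  unfold af
  linarith

theorem Ph_le_trace {s : ℝ} (hs : 0 < s) {G : Matrix I I ℝ} (hG : G.PosSemidef) :
    Ph s G ≤ trace G := by
  rw [← af_Cs hs hG]
  exact af_le_trace hs.le hG _

theorem af_add (s : ℝ) (C G N : Matrix I I ℝ) :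
    af s C (G + N) = af s C G + (2 * trace (C * N) - trace (C * N * Cᵀ)) := by
  unfold af
  rw [Matrix.mul_add, Matrix.add_mul, Matrix.trace_add, Matrix.trace_add]
  ring

/-- the linear part -/
def afl (C N : Matrix I I ℝ) : ℝ := 2 * trace (C * N) - trace (C * N * Cᵀ)

theorem afl_sum {K : Type*} [Fintype K] (C : Matrix I I ℝ) (c : K → ℝ) (N : K → Matrix I I ℝ) :
    afl C (∑ k, c k • N k) = ∑ k, c k * afl C (N k) := by
  unfold afl
  simp only [Matrix.sum_mul, Matrix.trace_sum, Matrix.mul_smul, Matrix.smul_mul, Matrix.trace_smul,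
    smul_eq_mul, Finset.mul_sum, mul_sub, Finset.sum_sub_distrib]
  congr 1
  refine Finset.sum_congr rfl fun k _ => ?_
  ring

theorem af_eq (s : ℝ) (C G : Matrix I I ℝ) : af s C G = afl C G - s * trace (C * Cᵀ) := rfl

/-- convexity -/
theorem Ph_convex {K : Type*} [Fintype K] {s : ℝ} (hs : 0 < s) {G : Matrix I I ℝ} (hG : G.PosSemidef)
    (c : K → ℝ) (hc : ∀ k, 0 ≤ c k) (hc1 : ∑ k, c k = 1) (Gk : K → Matrix I I ℝ) (hk : ∀ k, (Gk k).PosSemidef)
    (he : G = ∑ k, c k • Gk k) : Ph s G ≤ ∑ k, c k * Ph s (Gk k) := by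
  rw [← af_Cs hs hG]
  set C := Cs s G with hC
  rw [af_eq, he, afl_sum]
  have : ∑ k, c k * afl C (Gk k) - s * trace (C * Cᵀ) = ∑ k, c k * af s C (Gk k) := by
    simp only [af_eq, mul_sub, Finset.sum_sub_distrib]
    rw [← Finset.sum_mul, hc1, one_mul]
  rw [this]
  exact Finset.sum_le_sum fun k _ => mul_le_mul_of_nonneg_left (af_le hs (hk k) C) (hc k)

/-- perturbation of the predictor at the optimum -/
theorem af_pert {s : ℝ} (hs : 0 < s) {G : Matrix I I ℝ} (hG : G.PosSemidef) (N D : Matrix I I ℝ)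
    (hN : Nᵀ = N) :
    af s (Cs s G + D) (G + N) = af s (Cs s G) (G + N) + 2 * trace (D * N * (1 - Cs s G))
      - trace (D * (G + N) * Dᵀ) - s * trace (D * Dᵀ) := by
  have h1 := opt_Cs hs hG
  have h2 := Cs_symm hs hG
  have hGs := psd_symm hG
  set C := Cs s G with hC
  have e0 : trace (C * (G + N) * Dᵀ) = trace (D * (G + N) * C) := by
    rw [← Matrix.trace_transpose]
    simp only [Matrix.transpose_mul, Matrix.transpose_transpose, Matrix.transpose_add, hGs, hN, h2, Matrix.mul_assoc]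
  have e1 : trace (C * Dᵀ) = trace (D * C) := by
    rw [← Matrix.trace_transpose]
    simp only [Matrix.transpose_mul, Matrix.transpose_transpose, h2]
  have e2 : trace (D * (G + N) * C) + s * trace (D * C) = trace (D * G) + trace (D * N * C) := by
    have : D * (G + N) * C + s • (D * C) = D * G + D * N * C := by
      rw [← Matrix.mul_smul, ← h1, Matrix.mul_add, Matrix.add_mul, Matrix.mul_sub, Matrix.mul_assoc D G C]
      abel
    have h3 := congrArg Matrix.trace this
    simpa only [Matrix.trace_add, Matrix.trace_smul, smul_eq_mul] using h3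
  have e3 : trace (D * N * (1 - C)) = trace (D * N) - trace (D * N * C) := by
    rw [Matrix.mul_sub, Matrix.mul_one, Matrix.trace_sub]
  have E1 : trace ((C + D) * (G + N)) = trace (C * (G + N)) + (trace (D * G) + trace (D * N)) := by
    rw [Matrix.add_mul, Matrix.trace_add, Matrix.mul_add D, Matrix.trace_add]
  have E2 : trace ((C + D) * (G + N) * (C + D)ᵀ) = trace (C * (G + N) * Cᵀ) + trace (D * (G + N) * C)
      + trace (C * (G + N) * Dᵀ) + trace (D * (G + N) * Dᵀ) := by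
    rw [Matrix.transpose_add, h2, Matrix.add_mul C D (G + N), Matrix.add_mul (C * (G + N)), Matrix.mul_add (C * (G + N)),
      Matrix.mul_add (D * (G + N))]
    simp only [Matrix.trace_add]
    ring
  have E3 : trace ((C + D) * (C + D)ᵀ) = trace (C * Cᵀ) + trace (D * C) + trace (C * Dᵀ) + trace (D * Dᵀ) := by
    rw [Matrix.transpose_add, h2, Matrix.add_mul, Matrix.mul_add, Matrix.mul_add]
    simp only [Matrix.trace_add]
    ring
  unfold af
  rw [e3, E1, E2, E3, e0, e1]
  linarith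

theorem spec {G : Matrix I I ℝ} (hG : G.PosSemidef) :
    ∃ (U : Matrix I I ℝ) (l : I → ℝ), U * Uᵀ = 1 ∧ Uᵀ * U = 1 ∧ (∀ i, 0 ≤ l i) ∧
      G = U * diagonal l * Uᵀ := by
  refine ⟨(hG.1.eigenvectorUnitary : Matrix I I ℝ), hG.1.eigenvalues, ?_, ?_, hG.eigenvalues_nonneg, ?_⟩
  · have := Matrix.mem_unitaryGroup_iff.1 hG.1.eigenvectorUnitary.2
    rwa [Matrix.star_eq_conjTranspose, conjTranspose_eq_transpose_of_trivial] at this
  · have := Matrix.mem_unitaryGroup_iff'.1 hG.1.eigenvectorUnitary.2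
    rwa [Matrix.star_eq_conjTranspose, conjTranspose_eq_transpose_of_trivial] at this
  · have := hG.1.spectral_theorem
    rw [Unitary.conjStarAlgAut_apply, Matrix.star_eq_conjTranspose, conjTranspose_eq_transpose_of_trivial] at this
    exact this

theorem tr_mul3 (A B : Matrix I I ℝ) (d : I → ℝ) :
    trace (A * B * diagonal d) = ∑ k, ∑ l, A k l * B l k * d k := by
  simp only [Matrix.trace, Matrix.diag, Matrix.mul_diagonal]
  refine Finset.sum_congr rfl fun k _ => ?_
  rw [Matrix.mul_apply, Finset.sum_mul]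

theorem tr_quad (A : Matrix I I ℝ) (d : I → ℝ) :
    trace (A * diagonal d * Aᵀ) = ∑ k, ∑ l, A k l ^ 2 * d l := by
  simp only [Matrix.trace, Matrix.diag]
  refine Finset.sum_congr rfl fun k _ => ?_
  rw [Matrix.mul_apply]
  refine Finset.sum_congr rfl fun l _ => ?_
  rw [Matrix.mul_diagonal, Matrix.transpose_apply]
  ring

theorem tr_sq (A : Matrix I I ℝ) : trace (A * Aᵀ) = ∑ k, ∑ l, A k l ^ 2 := by
  simp only [Matrix.trace, Matrix.diag, Matrix.mul_apply, Matrix.transpose_apply]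
  refine Finset.sum_congr rfl fun k _ => Finset.sum_congr rfl fun l _ => ?_
  ring

theorem tr_conj {U : Matrix I I ℝ} (hU : Uᵀ * U = 1) (X : Matrix I I ℝ) : trace (U * X * Uᵀ) = trace X := by
  rw [Matrix.mul_assoc, Matrix.trace_mul_comm, Matrix.mul_assoc, hU, Matrix.mul_one]

theorem Rs_spec {s : ℝ} (hs : 0 < s) {G U : Matrix I I ℝ} {l : I → ℝ} (hG : G.PosSemidef) (hU : U * Uᵀ = 1)
    (hU' : Uᵀ * U = 1) (hl : ∀ i, 0 ≤ l i) (he : G = U * diagonal l * Uᵀ) :
    Rs s G = U * diagonal (fun i => (l i + s)⁻¹) * Uᵀ := by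
  have h1 : (G + s • (1 : Matrix I I ℝ)) = U * diagonal (fun i => l i + s) * Uᵀ := by
    have : diagonal (fun i => l i + s) = diagonal l + s • (1 : Matrix I I ℝ) := by
      rw [Matrix.smul_one_eq_diagonal, Matrix.diagonal_add]
    rw [this, Matrix.mul_add, Matrix.add_mul, Matrix.mul_smul, Matrix.mul_one, Matrix.smul_mul, hU, ← he]
  have h2 : (G + s • (1 : Matrix I I ℝ)) * (U * diagonal (fun i => (l i + s)⁻¹) * Uᵀ) = 1 := by
    rw [h1]
    have : U * diagonal (fun i => l i + s) * Uᵀ * (U * diagonal (fun i => (l i + s)⁻¹) * Uᵀ)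
        = U * (diagonal (fun i => l i + s) * (Uᵀ * U) * diagonal (fun i => (l i + s)⁻¹)) * Uᵀ := by
      simp only [Matrix.mul_assoc]
    rw [this, hU', Matrix.mul_one, Matrix.diagonal_mul_diagonal]
    have h3 : (fun i => (l i + s) * (l i + s)⁻¹) = fun _ : I => (1 : ℝ) := by
      funext i
      exact mul_inv_cancel₀ (by have := hl i; positivity)
    rw [h3, Matrix.diagonal_one, Matrix.mul_one, hU]
  calc Rs s G = Rs s G * ((G + s • (1 : Matrix I I ℝ)) * (U * diagonal (fun i => (l i + s)⁻¹) * Uᵀ)) := by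
        rw [h2, Matrix.mul_one]
    _ = U * diagonal (fun i => (l i + s)⁻¹) * Uᵀ := by
        rw [← Matrix.mul_assoc (Rs s G), Rs_mul hs hG, Matrix.one_mul]

/-- dyadic scale of a number -/
theorem scale {rho m : ℝ} (hr : 0 < rho) (hm : 0 ≤ m) {J : ℕ} (hJ : m ≤ rho * 2 ^ J) :
    ∃ j, j < J + 1 ∧ m ≤ rho * 2 ^ j ∧ rho * 2 ^ j ≤ rho + 2 * m := by
  classical
  have hex : ∃ j, m ≤ rho * 2 ^ j := ⟨J, hJ⟩
  refine ⟨Nat.find hex, ?_, Nat.find_spec hex, ?_⟩
  · exact Nat.lt_succ_of_le (Nat.find_min' hex hJ)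
  · rcases Nat.eq_zero_or_pos (Nat.find hex) with h | h
    · rw [h]
      simp only [pow_zero, mul_one]
      linarith
    · obtain ⟨i, hi⟩ := Nat.exists_eq_succ_of_ne_zero (Nat.pos_iff_ne_zero.1 h)
      have h2 := Nat.find_min hex (m := i) (by omega)
      rw [not_le] at h2
      rw [hi, Nat.succ_eq_add_one, pow_succ]
      nlinarith

/-- the sum of the potentials over the scales `rho 2^j`, `j <= J` -/
noncomputable def Fs (rho : ℝ) (J : ℕ) (G : Matrix I I ℝ) : ℝ :=
  ∑ j ∈ Finset.range (J + 1), Ph (rho * 2 ^ j) G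

/-- the supporting affine functional at `G` -/
noncomputable def Fa (rho : ℝ) (J : ℕ) (G G' : Matrix I I ℝ) : ℝ :=
  ∑ j ∈ Finset.range (J + 1), af (rho * 2 ^ j) (Cs (rho * 2 ^ j) G) G'

/-- GAIN of one outcome -/
theorem gain {rho L kap : ℝ} (hr : 0 < rho) (hL : 0 ≤ L) {J : ℕ} {G N : Matrix I I ℝ} (hG : G.PosSemidef)
    (hG' : (G + N).PosSemidef) (hLG : (L • G - (G + N)).PosSemidef) (htr : trace G ≤ rho * 2 ^ J)
    (B : Matrix I I ℝ) (hB : Bᵀ = B) :
    Fa rho J G (G + N) + 2 * kap * trace (B * N)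
      - 4 * kap ^ 2 * ((L + 4) * trace (B * G * B) + rho * trace (B * B)) ≤ Fs rho J (G + N) := by
  classical
  obtain ⟨U, l, hU, hU', hl, he⟩ := spec hG
  have hN : Nᵀ = N := by
    have h1 := psd_symm hG'
    rw [Matrix.transpose_add, psd_symm hG] at h1
    exact add_left_cancel h1
  -- eigenvalues are at most the trace
  have htrl : trace G = ∑ i, l i := by
    conv_lhs => rw [he]
    rw [tr_conj hU', Matrix.trace_diagonal]
  have hlt : ∀ i, l i ≤ rho * 2 ^ J := fun i =>
    ((Finset.single_le_sum (fun j _ => hl j) (Finset.mem_univ i)).trans htrl.symm.le).trans htr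
  have hsc : ∀ k i : I, ∃ j, j < J + 1 ∧ max (l k) (l i) ≤ rho * 2 ^ j ∧ rho * 2 ^ j ≤ rho + 2 * max (l k) (l i) :=
    fun k i => scale hr (le_max_of_le_left (hl k)) (max_le (hlt k) (hlt i))
  choose sg hsg1 hsg2 hsg3 using hsc
  set Bt : Matrix I I ℝ := Uᵀ * B * U with hBt
  set Nt : Matrix I I ℝ := Uᵀ * N * U with hNt
  have hBts : Btᵀ = Bt := by
    simp only [hBt, Matrix.transpose_mul, Matrix.transpose_transpose, hB, Matrix.mul_assoc]
  have hsymB : ∀ k i, Bt k i = Bt i k := fun k i => by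
    conv_lhs => rw [← hBts]
    rfl
  -- the pieces
  set Dt : ℕ → Matrix I I ℝ := fun j => Matrix.of fun k i =>
    if sg k i = j then kap * Bt k i * ((l k + rho * 2 ^ j) / (rho * 2 ^ j)) else 0 with hDt
  set D : ℕ → Matrix I I ℝ := fun j => U * Dt j * Uᵀ with hD
  have hpos : ∀ j : ℕ, 0 < rho * 2 ^ j := fun j => by positivity
  have hstep : ∀ j ∈ Finset.range (J + 1),
      af (rho * 2 ^ j) (Cs (rho * 2 ^ j) G) (G + N)
        + (2 * ∑ k, ∑ i, (if sg k i = j then kap * Bt k i * Nt i k else 0))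
        - (∑ k, ∑ i, if sg k i = j then 4 * kap ^ 2 * Bt k i ^ 2 * (L * l i + rho * 2 ^ j) else 0)
        ≤ Ph (rho * 2 ^ j) (G + N) := by
    intro j _
    have hs := hpos j
    have h1 := af_le hs hG' (Cs (rho * 2 ^ j) G + D j)
    rw [af_pert hs hG N (D j) hN] at h1
    have hA : trace (D j * N * (1 - Cs (rho * 2 ^ j) G))
        = ∑ k, ∑ i, (if sg k i = j then kap * Bt k i * Nt i k else 0) := by
      rw [one_sub_Cs hs hG, Rs_spec hs hG hU hU' hl he]
      have e1 : D j * N * ((rho * 2 ^ j) • (U * diagonal (fun i => (l i + rho * 2 ^ j)⁻¹) * Uᵀ))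
          = (rho * 2 ^ j) • (U * (Dt j * Nt * diagonal (fun i => (l i + rho * 2 ^ j)⁻¹)) * Uᵀ) := by
        rw [Matrix.mul_smul]
        simp only [hD, hNt, Matrix.mul_assoc]
      rw [e1, Matrix.trace_smul, tr_conj hU', tr_mul3, smul_eq_mul, Finset.mul_sum]
      refine Finset.sum_congr rfl fun k _ => ?_
      rw [Finset.mul_sum]
      refine Finset.sum_congr rfl fun i _ => ?_
      simp only [hDt, Matrix.of_apply]
      split_ifs with h
      · have h2 : l k + rho * 2 ^ j ≠ 0 := by have := hl k; positivity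
        have h3 := hs.ne'
        field_simp
      · simp
    have hB1 : trace (D j * (G + N) * (D j)ᵀ) ≤ L * ∑ k, ∑ i, Dt j k i ^ 2 * l i := by
      have h2 := (hLG.mul_mul_conjTranspose_same (D j)).trace_nonneg
      rw [conjTranspose_eq_transpose_of_trivial, Matrix.mul_sub, Matrix.sub_mul, Matrix.trace_sub, Matrix.mul_smul,
        Matrix.smul_mul, Matrix.trace_smul, smul_eq_mul] at h2
      have h3 : trace (D j * G * (D j)ᵀ) = ∑ k, ∑ i, Dt j k i ^ 2 * l i := by
        rw [← tr_quad, ← tr_conj hU' (Dt j * diagonal l * (Dt j)ᵀ)]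
        congr 1
        conv_lhs => rw [he]
        have : D j * (U * diagonal l * Uᵀ) * (D j)ᵀ = U * Dt j * (Uᵀ * U) * diagonal l * (Uᵀ * U) * (Dt j)ᵀ * Uᵀ := by
          simp only [hD, Matrix.transpose_mul, Matrix.transpose_transpose, Matrix.mul_assoc]
        rw [this, hU']
        simp only [Matrix.mul_assoc, Matrix.one_mul]
      rw [h3] at h2
      linarith
    have hB2 : trace (D j * (D j)ᵀ) = ∑ k, ∑ i, Dt j k i ^ 2 := by
      rw [← tr_sq, ← tr_conj hU' (Dt j * (Dt j)ᵀ)]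
      congr 1
      have : D j * (D j)ᵀ = U * Dt j * (Uᵀ * U) * (Dt j)ᵀ * Uᵀ := by
        simp only [hD, Matrix.transpose_mul, Matrix.transpose_transpose, Matrix.mul_assoc]
      rw [this, hU']
      simp only [Matrix.mul_assoc, Matrix.one_mul]
    have hC : L * ∑ k, ∑ i, Dt j k i ^ 2 * l i + rho * 2 ^ j * ∑ k, ∑ i, Dt j k i ^ 2
        ≤ ∑ k, ∑ i, if sg k i = j then 4 * kap ^ 2 * Bt k i ^ 2 * (L * l i + rho * 2 ^ j) else 0 := by
      rw [Finset.mul_sum, Finset.mul_sum, ← Finset.sum_add_distrib]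
      refine Finset.sum_le_sum fun k _ => ?_
      rw [Finset.mul_sum, Finset.mul_sum, ← Finset.sum_add_distrib]
      refine Finset.sum_le_sum fun i _ => ?_
      simp only [hDt, Matrix.of_apply]
      split_ifs with h
      · have h4 : (l k + rho * 2 ^ j) / (rho * 2 ^ j) ≤ 2 := by
          rw [div_le_iff₀ hs]
          have := (le_max_left (l k) (l i)).trans (hsg2 k i)
          rw [h] at this
          linarith
        have h5 : 0 ≤ (l k + rho * 2 ^ j) / (rho * 2 ^ j) := by have := hl k; positivity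
        have h6 : ((l k + rho * 2 ^ j) / (rho * 2 ^ j)) ^ 2 ≤ 4 := by nlinarith
        have h7 : 0 ≤ L * l i + rho * 2 ^ j := by have := hl i; positivity
        have h8 : 0 ≤ (kap * Bt k i) ^ 2 * (L * l i + rho * 2 ^ j) := by positivity
        have h9 := mul_le_mul_of_nonneg_left h6 h8
        calc L * ((kap * Bt k i * ((l k + rho * 2 ^ j) / (rho * 2 ^ j))) ^ 2 * l i)
              + rho * 2 ^ j * (kap * Bt k i * ((l k + rho * 2 ^ j) / (rho * 2 ^ j))) ^ 2
            = (kap * Bt k i) ^ 2 * (L * l i + rho * 2 ^ j) * ((l k + rho * 2 ^ j) / (rho * 2 ^ j)) ^ 2 := by ring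
          _ ≤ (kap * Bt k i) ^ 2 * (L * l i + rho * 2 ^ j) * 4 := h9
          _ = 4 * kap ^ 2 * Bt k i ^ 2 * (L * l i + rho * 2 ^ j) := by ring
      · simp
    rw [hA, hB2] at h1
    linarith
  have hsum := Finset.sum_le_sum hstep
  rw [Finset.sum_sub_distrib, Finset.sum_add_distrib] at hsum
  have hpick : ∀ f : ℕ → I → I → ℝ, ∑ j ∈ Finset.range (J + 1), ∑ k, ∑ i, (if sg k i = j then f j k i else 0)
      = ∑ k, ∑ i, f (sg k i) k i := by
    intro f
    rw [Finset.sum_comm]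
    refine Finset.sum_congr rfl fun k _ => ?_
    rw [Finset.sum_comm]
    refine Finset.sum_congr rfl fun i _ => ?_
    rw [Finset.sum_ite_eq, if_pos (Finset.mem_range.2 (hsg1 k i))]
  rw [← Finset.mul_sum, hpick (fun j k i => kap * Bt k i * Nt i k),
    hpick (fun j k i => 4 * kap ^ 2 * Bt k i ^ 2 * (L * l i + rho * 2 ^ j))] at hsum
  -- the three traces in the eigenbasis
  have t1 : trace (B * N) = ∑ k, ∑ i, Bt k i * Nt i k := by
    have e : B * N = U * (Bt * Nt) * Uᵀ := by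
      have : U * (Bt * Nt) * Uᵀ = (U * Uᵀ) * B * (U * Uᵀ) * N * (U * Uᵀ) := by
        simp only [hBt, hNt, Matrix.mul_assoc]
      rw [this, hU]
      simp only [Matrix.one_mul, Matrix.mul_one]
    rw [e, tr_conj hU']
    simp only [Matrix.trace, Matrix.diag, Matrix.mul_apply]
  have t2 : trace (B * G * B) = ∑ k, ∑ i, Bt k i ^ 2 * l i := by
    have e : B * G * B = U * (Bt * diagonal l * Btᵀ) * Uᵀ := by
      rw [hBts]
      have : U * (Bt * diagonal l * Bt) * Uᵀ = (U * Uᵀ) * B * (U * diagonal l * Uᵀ) * B * (U * Uᵀ) := by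
        simp only [hBt, Matrix.mul_assoc]
      rw [this, hU, ← he]
      simp only [Matrix.one_mul, Matrix.mul_one]
    rw [e, tr_conj hU', tr_quad]
  have t3 : trace (B * B) = ∑ k, ∑ i, Bt k i ^ 2 := by
    have e : B * B = U * (Bt * Btᵀ) * Uᵀ := by
      rw [hBts]
      have : U * (Bt * Bt) * Uᵀ = (U * Uᵀ) * B * (U * Uᵀ) * B * (U * Uᵀ) := by
        simp only [hBt, Matrix.mul_assoc]
      rw [this, hU]
      simp only [Matrix.one_mul, Matrix.mul_one]
    rw [e, tr_conj hU', tr_sq]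
  have t4 : ∑ k, ∑ i, Bt k i ^ 2 * l k = ∑ k, ∑ i, Bt k i ^ 2 * l i := by
    rw [Finset.sum_comm]
    refine Finset.sum_congr rfl fun i _ => Finset.sum_congr rfl fun k _ => ?_
    rw [hsymB k i]
  have c1 : ∑ k, ∑ i, 4 * kap ^ 2 * Bt k i ^ 2 * (L * l i + rho * 2 ^ (sg k i))
      ≤ 4 * kap ^ 2 * ((L + 4) * trace (B * G * B) + rho * trace (B * B)) := by
    have c2 : ∀ k i, 4 * kap ^ 2 * Bt k i ^ 2 * (L * l i + rho * 2 ^ (sg k i))
        ≤ 4 * kap ^ 2 * ((L + 2) * (Bt k i ^ 2 * l i) + 2 * (Bt k i ^ 2 * l k) + rho * Bt k i ^ 2) := by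
      intro k i
      have h1 := hsg3 k i
      have h2 : max (l k) (l i) ≤ l k + l i := max_le (by have := hl i; linarith) (by have := hl k; linarith)
      have h3 : 0 ≤ 4 * kap ^ 2 * Bt k i ^ 2 := by positivity
      have h4 : L * l i + rho * 2 ^ (sg k i) ≤ (L + 2) * l i + 2 * l k + rho := by nlinarith
      calc 4 * kap ^ 2 * Bt k i ^ 2 * (L * l i + rho * 2 ^ (sg k i))
          ≤ 4 * kap ^ 2 * Bt k i ^ 2 * ((L + 2) * l i + 2 * l k + rho) := mul_le_mul_of_nonneg_left h4 h3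
        _ = _ := by ring
    refine (Finset.sum_le_sum fun k _ => Finset.sum_le_sum fun i _ => c2 k i).trans ?_
    simp only [← Finset.mul_sum, Finset.sum_add_distrib]
    rw [t4, t2, t3]
    apply le_of_eq
    ring
  have c3 : ∑ k, ∑ i, kap * Bt k i * Nt i k = kap * trace (B * N) := by
    rw [t1, Finset.mul_sum]
    refine Finset.sum_congr rfl fun k _ => ?_
    rw [Finset.mul_sum]
    refine Finset.sum_congr rfl fun i _ => ?_
    ring
  unfold Fa Fs
  rw [c3] at hsum
  linarith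

end Af

end Pool.Agent.GMS
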